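import Pool.Agent.Lib.Baker.Bound

/-!
Linear forms in logarithms of primes, and the size of consecutive integers in terms of their prime
factors.
-/

set_option autoImplicit false

namespace Pool.Agent.Lib.Baker

open Finset Real

/-- Lower bound for a nontrivial integer combination of logarithms of primes. -/
theorem baker_primes (P : Finset ℕ) (hP : ∀ p ∈ P, p.Prime) (b : ℕ → ℤ) (B x : ℕ)
    (hne : ∃ p ∈ P, b p ≠ 0) (hB : ∀ p ∈ P, |b p| ≤ B) (hBx : log (2 * B) ≤ x)
    (hl : ∀ p ∈ P, log p ≤ x) (hx : 256 * P.card ^ 4 ≤ x) :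
    exp (-(x : ℝ) ^ (5 * P.card ^ 2 + 5 * P.card + 9)) < |∑ p ∈ P, b p * log p| := by
  classical
  obtain ⟨q, hq, hbq⟩ := hne
  obtain ⟨p0, hp0, hmax⟩ := exists_max_image P (fun p => |b p|) ⟨q, hq⟩
  have hb0 : b p0 ≠ 0 := by
    intro h
    have := hmax q hq
    rw [h, abs_zero] at this
    exact hbq (abs_nonpos_iff.1 this)
  have hcard : Fintype.card (P.erase p0) + 1 = P.card := by
    rw [Fintype.card_coe, card_erase_add_one hp0]
  have hfac : ∀ (k : ℕ) (f : P.erase p0 → ℕ) (q : ℕ),
      (p0 ^ k * ∏ r : P.erase p0, (r : ℕ) ^ f r).factorization q =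
        (if p0 = q then k else 0) + ∑ r : P.erase p0, if (r : ℕ) = q then f r else 0 := by
    intro k f q
    have h1 : ∀ r : P.erase p0, (r : ℕ).Prime := fun r => hP _ (mem_of_mem_erase r.2)
    rw [Nat.factorization_mul (pow_ne_zero _ (hP _ hp0).ne_zero)
      (prod_ne_zero_iff.2 fun r _ => pow_ne_zero _ (h1 r).ne_zero),
      Nat.factorization_prod fun r _ => pow_ne_zero _ (h1 r).ne_zero]
    simp only [Finsupp.add_apply, Finsupp.finsetSum_apply, (hP _ hp0).factorization_pow,
      (h1 _).factorization_pow, Finsupp.single_apply]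
  have key := baker_aux (J := P.erase p0) p0 (fun r => r) (b p0) (fun r => b r) x (hP _ hp0).pos
    (fun r => (hP _ (mem_of_mem_erase r.2)).pos)
    (fun k k' f f' h => by
      constructor
      · have h1 := hfac k f p0
        have h2 : ∀ r : P.erase p0, (r : ℕ) ≠ p0 := fun r => ne_of_mem_erase r.2
        rw [h, hfac] at h1
        simpa [h2] using h1.symm
      · funext r
        have h1 := hfac k f r
        have h2 : p0 ≠ r := (ne_of_mem_erase r.2).symm
        rw [h, hfac] at h1
        simpa [h2, Subtype.coe_inj] using h1.symm)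
    (hl _ hp0) (fun r => hl _ (mem_of_mem_erase r.2)) hb0
    (fun r => hmax _ (mem_of_mem_erase r.2))
    (by
      have h1 : |(b p0 : ℝ)| ≤ B := by exact_mod_cast hB _ hp0
      have h2 : (1 : ℝ) ≤ |(b p0 : ℝ)| := by exact_mod_cast Int.one_le_abs hb0
      exact (log_le_log (by linarith) (by linarith)).trans hBx)
    (by rwa [hcard])
  rwa [hcard, sum_coe_sort (P.erase p0) fun r => (b r : ℝ) * log r,
    add_sum_erase P (fun r => (b r : ℝ) * log r) hp0] at key

/-- If `z (z + 1)` has at most `s` prime factors, all at most `exp x`, then `z + 1` is bounded. -/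
theorem log_succ_le {z s x : ℕ} (hz : 1 ≤ z) (hs : (z * (z + 1)).primeFactors.card ≤ s)
    (hl : ∀ p ∈ (z * (z + 1)).primeFactors, log p ≤ x) (hx : 1296 * (s + 1) ^ 4 ≤ x) :
    Nat.log 2 (z + 1) ≤ 2 * x ^ (5 * s ^ 2 + 5 * s + 9) := by
  set P := (z * (z + 1)).primeFactors with hP
  set B := Nat.log 2 (z + 1) with hB
  set E := 5 * s ^ 2 + 5 * s + 9 with hE
  have hz0 : z ≠ 0 := by omega
  have hsub : ∀ n : ℕ, n ∣ z * (z + 1) → ∑ p ∈ P, (n.factorization p : ℝ) * log p = log n := by
    intro n hn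
    rw [Real.log_nat_eq_sum_factorization]
    symm
    refine sum_subset (Nat.primeFactors_mono hn (by positivity)) fun p _ hp => ?_
    rw [Finsupp.notMem_support_iff.1 hp]; simp
  have hfac : ∀ n p : ℕ, n ≠ 0 → n ≤ z + 1 → p ∈ P → n.factorization p ≤ B := by
    intro n p hn h1 hp
    refine Nat.le_log_of_pow_le (by norm_num) (le_trans ?_ h1)
    exact (Nat.pow_le_pow_left (Nat.prime_of_mem_primeFactors hp).two_le _).trans
      (Nat.ordProj_le p hn)
  have main : ∀ y : ℕ, x ≤ y → log (2 * B) ≤ y → B ≤ 2 * y ^ E := by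
    intro y hy hBy
    have hs4 : P.card ^ 4 ≤ (s + 1) ^ 4 := Nat.pow_le_pow_left (by omega) _
    have hs5 : 1 ≤ (s + 1) ^ 4 := Nat.one_le_pow _ _ (by omega)
    have key := baker_primes P (fun p hp => Nat.prime_of_mem_primeFactors hp)
      (fun p => ((z + 1).factorization p : ℤ) - z.factorization p) B y
      (by
        obtain ⟨p, hp, hd⟩ := Nat.exists_prime_and_dvd (show z + 1 ≠ 1 by omega)
        refine ⟨p, Nat.mem_primeFactors.2 ⟨hp, hd.mul_left _, by positivity⟩, ?_⟩
        have h1 : ¬ p ∣ z := fun h => hp.one_lt.ne' (Nat.dvd_one.1 ((Nat.dvd_add_right h).1 hd))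
        have h2 := hp.factorization_pos_of_dvd (by omega) hd
        rw [Nat.factorization_eq_zero_of_not_dvd h1]
        omega)
      (fun p hp => by
        have h1 := hfac (z + 1) p (by omega) le_rfl hp
        have h2 := hfac z p hz0 (by omega) hp
        rw [abs_le]; omega)
      hBy (fun p hp => (hl p hp).trans (by exact_mod_cast hy)) (by omega)
    have hzR : (1 : ℝ) ≤ z := by exact_mod_cast hz
    have e : ∑ p ∈ P, ((((z + 1).factorization p : ℤ) - z.factorization p : ℤ) : ℝ) * log p =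
        log (1 + 1 / z) := by
      push_cast
      simp only [sub_mul, sum_sub_distrib]
      rw [hsub _ (Dvd.intro_left _ rfl), hsub _ (Dvd.intro _ rfl), ← log_div (by positivity)
        (by positivity)]
      congr 1; push_cast; field_simp
    rw [e, abs_of_nonneg (log_nonneg (by have : 0 ≤ 1 / (z : ℝ) := by positivity
                                         linarith))] at key
    have h1 : log (1 + 1 / z) ≤ 1 / z := by
      have := log_le_sub_one_of_pos (show (0 : ℝ) < 1 + 1 / z by positivity)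
      linarith
    have h2 : (2 : ℝ) ^ B ≤ z + 1 := by exact_mod_cast Nat.pow_log_le_self 2 (by omega)
    have hy1 : (1 : ℝ) ≤ y := by exact_mod_cast (by omega : 1 ≤ y)
    have h3 : (y : ℝ) ^ (5 * P.card ^ 2 + 5 * P.card + 9) ≤ (y : ℝ) ^ E := by
      refine pow_le_pow_right₀ hy1 ?_
      have := Nat.pow_le_pow_left hs 2
      omega
    have h4 : exp (-(y : ℝ) ^ E) < 1 / z := ((exp_le_exp.2 (by linarith)).trans_lt key).trans_le h1
    have h5 : (z : ℝ) < exp ((y : ℝ) ^ E) := by
      rw [exp_neg, ← one_div, one_div_lt_one_div (exp_pos _) (by linarith)] at h4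
      exact h4
    have h6 : (2 : ℝ) ^ B < 2 * exp ((y : ℝ) ^ E) := by linarith
    have h7 := log_lt_log (by positivity) h6
    rw [log_pow, log_mul (by norm_num) (exp_pos _).ne', log_exp] at h7
    have l2 := log_two_gt_d9
    have h8 : (B : ℝ) < 2 * (y : ℝ) ^ E + 1 := by
      by_contra hc
      push Not at hc
      have : 0 ≤ (y : ℝ) ^ E := by positivity
      nlinarith
    have h9 : B < 2 * y ^ E + 1 := by exact_mod_cast h8
    omega
  by_cases hc : log (2 * B) ≤ x
  · exact main x le_rfl hc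
  exfalso
  push Not at hc
  set y := ⌈log (2 * (B : ℝ))⌉₊ with hy
  have hxy : x ≤ y := by
    have : (x : ℝ) ≤ y := hc.le.trans (Nat.le_ceil _)
    exact_mod_cast this
  have h1 := main y hxy (Nat.le_ceil _)
  have hx0 : (0 : ℝ) ≤ x := Nat.cast_nonneg _
  have h2 : (y : ℝ) < log (2 * B) + 1 := Nat.ceil_lt_add_one (by linarith)
  have hE2 : 16 * E ^ 2 ≤ y := by
    have h3 : E ≤ 9 * (s + 1) ^ 2 := by rw [hE]; nlinarith
    have h4 := Nat.pow_le_pow_left h3 2
    have h5 : (9 * (s + 1) ^ 2) ^ 2 = 81 * (s + 1) ^ 4 := by ring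
    omega
  have hE9 : (9 : ℝ) ≤ E := by exact_mod_cast (by omega : 9 ≤ E)
  have hE3 : 16 * (E : ℝ) ^ 2 ≤ y := by exact_mod_cast hE2
  have hy0 : (0 : ℝ) < y := by nlinarith
  have hB0 : 0 < B := Nat.log_pos (by norm_num) (by omega)
  have h3 : log (2 * B) ≤ log 4 + E * log y := by
    rw [← log_pow, ← log_mul (by norm_num) (by positivity)]
    refine log_le_log (by positivity) ?_
    have : (B : ℝ) ≤ 2 * (y : ℝ) ^ E := by exact_mod_cast h1
    linarith
  have h4 : log 4 ≤ 3 := by linarith [log_le_sub_one_of_pos (show (0 : ℝ) < 4 by norm_num)]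
  set r := √(y : ℝ) with hr
  have hr2 : r ^ 2 = y := sq_sqrt hy0.le
  have hr0 : 0 < r := sqrt_pos.2 hy0
  have h5 : log y ≤ 2 * r := by
    rw [← hr2, log_pow]
    have := log_le_sub_one_of_pos hr0
    push_cast; linarith
  have h6 : 4 * (E : ℝ) ≤ r := by
    refine le_sqrt_of_sq_le ?_
    linarith
  nlinarith

end Pool.Agent.Lib.Baker
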