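import Pool.Agent.Lib.Baker.Main

/-!
Baker type lower bound, and the resulting bound for the exponents in `y - z = 1`.
-/

set_option autoImplicit false

namespace Pool.Agent.Lib.Baker

open Finset Real

/-- Lower bound for `b₀ log α₀ + ∑ b r log (α r)` when `b₀` is the largest coefficient. -/
theorem baker_aux {J : Type*} [Fintype J] (α0 : ℕ) (α : J → ℕ) (b0 : ℤ) (b : J → ℤ) (x : ℕ)
    (hα0 : 0 < α0) (hα : ∀ r, 0 < α r)
    (hinj : ∀ (k k' : ℕ) (f f' : J → ℕ), α0 ^ k * ∏ r, α r ^ f r = α0 ^ k' * ∏ r, α r ^ f' r →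
      k = k' ∧ f = f')
    (hl0 : log α0 ≤ x) (hl : ∀ r, log (α r) ≤ x) (hb0 : b0 ≠ 0) (hb : ∀ r, |b r| ≤ |b0|)
    (hB : log (2 * |(b0 : ℝ)|) ≤ x) (hx : 256 * (Fintype.card J + 1) ^ 4 ≤ x) :
    exp (-(x : ℝ) ^ (5 * (Fintype.card J + 1) ^ 2 + 5 * (Fintype.card J + 1) + 9)) <
      |b0 * log α0 + ∑ r, b r * log (α r)| := by
  classical
  by_contra hcon
  push Not at hcon
  set n := Fintype.card J with hn
  set v := n + 1 with hv
  set X : ℝ := (x : ℝ) with hXdef
  set Λ := b0 * log α0 + ∑ r, b r * log (α r) with hΛ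
  have hv1 : 1 ≤ v := by omega
  have hv4 : v ≤ v ^ 4 := Nat.le_self_pow (by norm_num) _
  have hv2 : v ^ 2 ≤ v ^ 4 := Nat.pow_le_pow_right hv1 (by norm_num)
  have hx256 : 256 ≤ x := by omega
  have hx0 : 0 < x := by omega
  have hX : (256 : ℝ) ≤ X := by rw [hXdef]; exact_mod_cast hx256
  have hX1 : (1 : ℝ) ≤ X := by linarith
  set L := x ^ (5 * v) with hL
  set S := x ^ (5 * v + 4) with hS
  set K := 5 * v ^ 2 with hK
  set T := 5 * v ^ 2 + 5 * v + 6 with hT
  have hL0 : 0 < L := by positivity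
  have hS0 : 0 < S := by positivity
  let ι := Fin L × (J → Fin L)
  let ν : ι → ℕ := fun i => α0 ^ (i.1 : ℕ) * ∏ r, α r ^ (i.2 r : ℕ)
  let γ : ι → J → ℤ := fun i r => b0 * (i.2 r : ℕ) - b r * (i.1 : ℕ)
  let κ : J → ℝ := fun r => log (α r) / b0
  have hcard : Fintype.card ι = x ^ K := by
    simp only [ι, Fintype.card_prod, Fintype.card_fin, Fintype.card_fun, ← hn]
    rw [← pow_succ', hL, ← pow_mul, hK]; congr 1; rw [← hv]; ring
  have hν0 : ∀ i, 0 < ν i := fun i =>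
    Nat.mul_pos (pow_pos hα0 _) (prod_pos fun r _ => pow_pos (hα r) _)
  have hνinj : Function.Injective ν := by
    intro i i' h
    obtain ⟨h1, h2⟩ := hinj _ _ _ _ h
    exact Prod.ext (Fin.ext h1) (funext fun r => Fin.ext (congrFun h2 r))
  have hlog : ∀ i, log (ν i) = (i.1 : ℕ) * log α0 + ∑ r, (i.2 r : ℕ) * log (α r) := by
    intro i
    have h1 : ∀ r, (α r : ℝ) ≠ 0 := fun r => by have := hα r; positivity
    have h2 : (α0 : ℝ) ≠ 0 := by positivity
    simp only [ν]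
    push_cast
    rw [log_mul (pow_ne_zero _ h2) (prod_ne_zero_iff.2 fun r _ => pow_ne_zero _ (h1 r)),
      log_prod fun r _ => pow_ne_zero _ (h1 r)]
    simp only [log_pow]
  set Θ : ℝ := v * L * X with hΘ
  have hΘ0 : 0 ≤ Θ := by positivity
  have hlogle : ∀ i, log (ν i) ≤ Θ := by
    intro i
    rw [hlog]
    have h1 : ∀ (k : Fin L) (a : ℕ), log a ≤ X → ((k : ℕ) : ℝ) * log a ≤ L * X := by
      intro k a ha
      have : ((k : ℕ) : ℝ) ≤ L := by exact_mod_cast k.2.le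
      have := log_natCast_nonneg a
      gcongr
    have h2 := sum_le_card_nsmul univ (fun r => ((i.2 r : ℕ) : ℝ) * log (α r)) (L * X)
      fun r _ => h1 _ _ (hl r)
    rw [card_univ, ← hn, nsmul_eq_mul] at h2
    have h3 := h1 i.1 _ hl0
    rw [hΘ, hv]; push_cast at *; linarith
  have hb1 : (1 : ℝ) ≤ |(b0 : ℝ)| := by exact_mod_cast Int.one_le_abs hb0
  have hb0' : (b0 : ℝ) ≠ 0 := by exact_mod_cast hb0
  set η : ℝ := L * exp (-X ^ (T + 3)) with hη
  have hηb : ∀ i, |log (ν i) - ∑ r, κ r * γ i r| ≤ η := by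
    intro i
    have e : log (ν i) - ∑ r, κ r * γ i r = (i.1 : ℕ) * (Λ / b0) := by
      have e1 : ∀ r, κ r * γ i r = (i.2 r : ℕ) * log (α r) -
          (i.1 : ℕ) / (b0 : ℝ) * (b r * log (α r)) := by
        intro r
        simp only [κ, γ]
        push_cast
        field_simp
      simp only [hlog, e1, sum_sub_distrib, ← mul_sum, hΛ]
      field_simp
      ring
    rw [e, abs_mul, abs_div, abs_of_nonneg (Nat.cast_nonneg _)]
    have h1 : ((i.1 : ℕ) : ℝ) ≤ L := by exact_mod_cast i.1.2.le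
    have h2 : |Λ| / |(b0 : ℝ)| ≤ exp (-X ^ (T + 3)) :=
      (div_le_self (abs_nonneg _) hb1).trans hcon
    rw [hη]
    gcongr
  have hLX : (L : ℝ) = X ^ (5 * v) := by rw [hL]; push_cast; rfl
  have hSX : (S : ℝ) = X ^ (5 * v + 4) := by rw [hS]; push_cast; rfl
  have hLT : (L : ℝ) ≤ X ^ T := by rw [hLX]; exact pow_le_pow_right₀ hX1 (by omega)
  have hη1 : η ≤ 1 := by
    have h1 : X ^ T ≤ X ^ (T + 3) := pow_le_pow_right₀ hX1 (by omega)
    have h2 := add_one_le_exp (X ^ (T + 3))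
    rw [hη, exp_neg, ← div_eq_mul_inv, div_le_one (exp_pos _)]
    linarith
  set Γ : ℝ := 2 * |(b0 : ℝ)| * L with hΓ
  have hL1 : (1 : ℝ) ≤ L := by exact_mod_cast hL0
  have hΓ1 : 1 ≤ Γ := by rw [hΓ]; nlinarith
  have hγ : ∀ i r, |(γ i r : ℝ)| ≤ Γ := by
    intro i r
    have h1 : ((i.1 : ℕ) : ℝ) ≤ L := by exact_mod_cast i.1.2.le
    have h2 : ((i.2 r : ℕ) : ℝ) ≤ L := by exact_mod_cast (i.2 r).2.le
    have h3 : |(b r : ℝ)| ≤ |(b0 : ℝ)| := by exact_mod_cast hb r
    simp only [γ]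
    push_cast
    refine (abs_sub _ _).trans ?_
    rw [abs_mul, abs_mul, Nat.abs_cast, Nat.abs_cast]
    have h4 : |(b0 : ℝ)| * ((i.2 r : ℕ) : ℝ) ≤ |(b0 : ℝ)| * L := by gcongr
    have h5 : |(b r : ℝ)| * ((i.1 : ℕ) : ℝ) ≤ |(b0 : ℝ)| * L := by gcongr
    linarith
  set G : ℝ := Γ ^ (n * (K * S)) with hG
  have hG1 : 1 ≤ G := one_le_pow₀ hΓ1
  set U : ℝ := G * exp ((x ^ 2 : ℕ) * Θ) with hU
  have hU1 : 1 ≤ U := one_le_mul_of_one_le_of_one_le hG1 (one_le_exp (by positivity))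
  obtain ⟨c, hc0, hcb, hcz⟩ := exists_aux γ ν (M := K * S) (h := x ^ 2) (by positivity) hU1
    (by
      have h1 : K * S + 1 ≤ x ^ (5 * v + 5) := by
        have h2 : K + 1 ≤ x := by omega
        calc K * S + 1 ≤ (K + 1) * S := by nlinarith
          _ ≤ x * S := Nat.mul_le_mul_right _ h2
          _ = _ := by rw [hS]; ring
      rw [hcard, ← hn]
      calc 2 * ((K * S + 1) ^ n * x ^ 2) ≤ x * ((x ^ (5 * v + 5)) ^ n * x ^ 2) := by
            gcongr; omega
        _ = x ^ ((5 * v + 5) * n + 3) := by ring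
        _ ≤ x ^ K := Nat.pow_le_pow_right hx0 (by rw [hK, hv]; nlinarith))
    (fun i m l hm hl' => by
      rw [Int.cast_mul, abs_mul]
      have h1 := abs_prod_pow_le hΓ1 (hγ i) hm
      have h2 : |(((ν i : ℤ) ^ l : ℤ) : ℝ)| ≤ exp ((x ^ 2 : ℕ) * Θ) := by
        have h3 : (0 : ℝ) < ν i := by exact_mod_cast hν0 i
        have h4 : (l : ℝ) ≤ (x ^ 2 : ℕ) := by exact_mod_cast hl'.le
        have h5 := hlogle i
        have h6 := log_natCast_nonneg (ν i)
        rw [Int.cast_pow, Int.cast_natCast, abs_of_nonneg (by positivity), ← exp_log h3,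
          ← exp_nat_mul]
        gcongr
      exact mul_le_mul h1 h2 (abs_nonneg _) (by linarith))
  set Wt : ℝ := X ^ K * (X ^ K * U * G) with hWt
  have hcardR : (Fintype.card ι : ℝ) = X ^ K := by rw [hcard]; push_cast; rfl
  have hW : ∀ M, M ≤ K * S → ∀ m : J → ℕ, (∀ r, m r ≤ M) →
      ∑ i, |((c i * ∏ r, γ i r ^ m r : ℤ) : ℝ)| ≤ Wt := by
    intro M hM m hm
    refine (sum_le_card_nsmul _ _ (X ^ K * U * G) fun i _ => ?_).trans ?_
    · rw [Int.cast_mul, abs_mul]
      have h1 := abs_prod_pow_le hΓ1 (hγ i) fun r => (hm r).trans hM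
      have h2 := hcb i
      rw [hcardR] at h2
      exact mul_le_mul h2 h1 (abs_nonneg _) (by positivity)
    · rw [card_univ, nsmul_eq_mul, hcardR]
  have hvX : 256 * (v : ℝ) ^ 4 ≤ X := by rw [hXdef]; exact_mod_cast hx
  have hvR : (1 : ℝ) ≤ v := by exact_mod_cast hv1
  have hvle : (v : ℝ) ≤ X := by rw [hXdef]; exact_mod_cast (by omega : v ≤ x)
  have hXe : X ≤ exp X := by linarith [add_one_le_exp X]
  have hWle : Wt ≤ exp (X ^ (5 * v + 6) / 4) := by
    set P := X ^ (5 * v + 5) with hP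
    have hPX : X ≤ P := le_self_pow₀ hX1 (by omega)
    have hv24 : (v : ℝ) ^ 2 ≤ (v : ℝ) ^ 4 := by exact_mod_cast hv2
    have hv41 : (1 : ℝ) ≤ (v : ℝ) ^ 4 := one_le_pow₀ hvR
    have a1 : X ^ K ≤ exp (5 * (v : ℝ) ^ 4 * X) := by
      calc X ^ K ≤ exp X ^ K := by gcongr
        _ = exp (K * X) := (exp_nat_mul _ _).symm
        _ ≤ _ := by rw [hK]; push_cast; gcongr
    have a2 : Γ ≤ exp (6 * v * X) := by
      have b1 : 2 * |(b0 : ℝ)| ≤ exp X := by
        rw [← exp_log (by linarith : 0 < 2 * |(b0 : ℝ)|)]; exact exp_le_exp.2 hB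
      have b2 : (L : ℝ) ≤ exp (5 * v * X) := by
        calc (L : ℝ) ≤ exp X ^ (5 * v) := by rw [hLX]; gcongr
          _ = _ := by rw [← exp_nat_mul]; push_cast; rfl
      calc Γ ≤ exp X * exp (5 * v * X) := by rw [hΓ]; gcongr
        _ ≤ _ := by rw [← exp_add]; exact exp_le_exp.2 (by nlinarith)
    have a3 : G ≤ exp (30 * (v : ℝ) ^ 4 * P) := by
      calc G ≤ exp (6 * v * X) ^ (n * (K * S)) := by rw [hG]; gcongr
        _ = exp ((n * (K * S) : ℕ) * (6 * v * X)) := (exp_nat_mul _ _).symm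
        _ ≤ _ := by
            refine exp_le_exp.2 ?_
            have b1 : (n : ℝ) ≤ v := by exact_mod_cast Nat.le_succ n
            calc ((n * (K * S) : ℕ) : ℝ) * (6 * v * X) =
                  n * (5 * v ^ 2 * X ^ (5 * v + 4)) * (6 * v * X) := by
                  rw [hK]; push_cast; rw [hSX]
              _ ≤ v * (5 * v ^ 2 * X ^ (5 * v + 4)) * (6 * v * X) := by gcongr
              _ = _ := by rw [hP]; ring
    have a4 : ((x ^ 2 : ℕ) : ℝ) * Θ ≤ P := by
      calc ((x ^ 2 : ℕ) : ℝ) * Θ = X ^ 2 * (v * X ^ (5 * v) * X) := by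
            rw [hΘ, hLX]; push_cast; rfl
        _ ≤ X ^ 2 * (X * X ^ (5 * v) * X) := by gcongr
        _ = X ^ (5 * v + 4) := by ring
        _ ≤ P := pow_le_pow_right₀ hX1 (by omega)
    have a5 : 10 * X ≤ P := by
      have : X ^ 2 ≤ P := pow_le_pow_right₀ hX1 (by omega)
      nlinarith
    calc Wt ≤ exp (5 * (v : ℝ) ^ 4 * X) * (exp (5 * (v : ℝ) ^ 4 * X) *
          (exp (30 * (v : ℝ) ^ 4 * P) * exp P) * exp (30 * (v : ℝ) ^ 4 * P)) := by
          rw [hWt, hU]; gcongr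
      _ ≤ _ := by
          simp only [← exp_add]
          refine exp_le_exp.2 ?_
          have e : X ^ (5 * v + 6) = X * P := by rw [hP]; ring
          have hP0 : 0 ≤ P := by positivity
          have c1 : (v : ℝ) ^ 4 * (10 * X) ≤ (v : ℝ) ^ 4 * P := by gcongr
          have c2 : 256 * (v : ℝ) ^ 4 * P ≤ X * P := by gcongr
          have c3 : 1 * P ≤ (v : ℝ) ^ 4 * P := by gcongr
          rw [e]
          nlinarith
  have hind : ∀ j, j ≤ K → ∀ l < x ^ (2 + j), Van γ ν c ((K - j) * S) l := by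
    intro j
    induction j with
    | zero => intro _ l hl'; exact hcz l hl'
    | succ j ih =>
      intro hj
      have hNX : ((x ^ (2 + j) * S : ℕ) : ℝ) = X ^ (2 + j + (5 * v + 4)) := by
        rw [hS]; push_cast; rw [← pow_add]
      refine Van.step κ hν0 hlogle hηb hη1 (h := x ^ (2 + j)) (S := S)
        (hW _ (Nat.mul_le_mul_right _ (Nat.sub_le _ _))) (fun W hW0 hW1 => ?_) ?_
      · refine numeric (T := T) hX (Nat.one_le_pow _ _ hx0) hS0
          (Nat.pow_le_pow_right hx0 (by omega)) hW0 ?_ hΘ0 ?_ ?_ ?_ ?_ (by positivity) hLT le_rfl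
        · refine hW1.trans (hWle.trans (exp_le_exp.2 ?_))
          rw [hNX]
          exact div_le_div_of_nonneg_right (pow_le_pow_right₀ hX1 (by omega)) (by norm_num)
        · rw [hNX]
          calc X * (((x ^ (2 + (j + 1)) : ℕ) : ℝ) * Θ) =
                X * (X ^ (2 + (j + 1)) * (v * X ^ (5 * v) * X)) := by
                rw [hΘ, hLX]; push_cast; rfl
            _ ≤ X * (X ^ (2 + (j + 1)) * (X * X ^ (5 * v) * X)) := by gcongr
            _ = _ := by ring
        · rw [hNX]; exact pow_le_pow_right₀ hX1 (by omega)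
        · push_cast; exact pow_le_pow_right₀ hX1 (by omega)
        · rw [hXdef]; exact_mod_cast (by omega : T + 1 ≤ x)
      · intro l hl'
        have e : (K - (j + 1)) * S + S = (K - j) * S := by
          rw [← Nat.succ_mul]; congr 1; omega
        rw [e]
        exact ih (by omega) l hl'
  refine hc0 (eq_zero_of_van (γ := γ) hνinj fun l hl' => ?_)
  have := hind K le_rfl l (by
    rw [hcard] at hl'
    exact hl'.trans_le (Nat.pow_le_pow_right hx0 (by omega)))
  simpa using this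

end Pool.Agent.Lib.Baker
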