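import Mathlib

/-!
Hermite type approximation of one exponential by exponential polynomials, and the extrapolation
lemma used in Baker's method.
-/

set_option autoImplicit false

namespace Pool.Agent.Lib.Baker

open Finset Real

/-- Basis function `t ^ j / j! * exp (l t)`. -/
noncomputable def eb (l j : ℕ) (t : ℝ) : ℝ := t ^ j / j.factorial * exp (l * t)

/-- Exponential polynomial with frequency `l`. -/
noncomputable def ep (S l : ℕ) (c : ℕ → ℝ) (t : ℝ) : ℝ := ∑ j ∈ range S, c j * eb l j t

theorem hasDerivAt_exp_mul (l t : ℝ) : HasDerivAt (fun t => exp (l * t)) (l * exp (l * t)) t := by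
  have h := ((hasDerivAt_id t).const_mul l).exp
  simpa [mul_comm] using h

theorem hasDerivAt_eb_zero (l : ℕ) (t : ℝ) : HasDerivAt (eb l 0) (l * eb l 0 t) t := by
  have h := hasDerivAt_exp_mul l t
  have e : eb l 0 = fun t => exp (l * t) := by funext t; simp [eb]
  rw [e]; exact h

theorem hasDerivAt_eb_succ (l j : ℕ) (t : ℝ) :
    HasDerivAt (eb l (j + 1)) (eb l j t + l * eb l (j + 1) t) t := by
  have h := ((hasDerivAt_pow (j + 1) t).div_const ((j + 1).factorial : ℝ)).mul
    (hasDerivAt_exp_mul l t)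
  refine HasDerivAt.congr_deriv h ?_
  have h1 : (j.factorial : ℝ) ≠ 0 := by positivity
  have h2 : ((j : ℝ) + 1) ≠ 0 := by positivity
  simp only [eb, Nat.factorial_succ, Nat.add_sub_cancel]
  push_cast
  field_simp

theorem hasDerivAt_ep (S l : ℕ) (c : ℕ → ℝ) (hc : c S = 0) (t : ℝ) :
    HasDerivAt (ep S l c) (ep S l (fun j => c (j + 1) + l * c j) t) t := by
  have e : ep S l c = fun t => ∑ j ∈ range S, c (j + 1) * eb l (j + 1) t + c 0 * eb l 0 t := by
    funext t
    rw [← sum_range_succ' (fun j => c j * eb l j t), sum_range_succ, hc]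
    simp [ep]
  have h1 : HasDerivAt (fun t => ∑ j ∈ range S, c (j + 1) * eb l (j + 1) t)
      (∑ j ∈ range S, c (j + 1) * (eb l j t + l * eb l (j + 1) t)) t :=
    HasDerivAt.fun_sum fun j _ => (hasDerivAt_eb_succ l j t).const_mul _
  have h2 := h1.add ((hasDerivAt_eb_zero l t).const_mul (c 0))
  rw [e]
  refine HasDerivAt.congr_deriv h2 ?_
  have e2 : ep S l c t = ∑ j ∈ range S, c (j + 1) * eb l (j + 1) t + c 0 * eb l 0 t := by
    rw [e]
  have e3 : ep S l (fun j => c (j + 1) + l * c j) t =
      ∑ j ∈ range S, c (j + 1) * eb l j t + l * ep S l c t := by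
    simp only [ep, mul_sum, ← sum_add_distrib]
    exact sum_congr rfl fun j _ => by ring
  rw [e3, e2, mul_add, mul_sum, ← add_assoc, ← sum_add_distrib]
  congr 1
  · exact sum_congr rfl fun j _ => by ring
  · ring

theorem ep_zero {S : ℕ} (hS : 0 < S) (l : ℕ) (c : ℕ → ℝ) : ep S l c 0 = c 0 := by
  unfold ep
  rw [sum_eq_single 0]
  · simp [eb]
  · intro j _ hj; simp [eb, hj]
  · intro h; exact absurd (mem_range.2 hS) h

theorem exists_solve {d : ℝ} (hd : 1 ≤ |d|) {W : ℝ} (hW : 0 ≤ W) (K : ℕ) :
    ∀ c : ℕ → ℝ, (∀ j, K ≤ j → c j = 0) → (∀ j, |c j| ≤ W) →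
      ∃ c' : ℕ → ℝ, (∀ j, K ≤ j → c' j = 0) ∧ (∀ j, c' (j + 1) + d * c' j = c j) ∧
        ∀ j, |c' j| ≤ K * W := by
  have hd0 : d ≠ 0 := by rintro rfl; simp at hd; linarith
  induction K with
  | zero =>
    intro c h0 _
    exact ⟨fun _ => 0, fun _ _ => rfl, fun j => by simp [h0 j (Nat.zero_le _)], fun j => by simp⟩
  | succ K ih =>
    intro c h0 hb
    obtain ⟨c', h1, h2, h3⟩ := ih (fun j => c (j + 1)) (fun j hj => h0 _ (by omega))
      (fun j => hb _)
    refine ⟨fun j => Nat.casesOn j ((c 0 - c' 0) / d) c', ?_, ?_, ?_⟩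
    · rintro (_ | j) hj
      · omega
      · exact h1 j (by omega)
    · rintro (_ | j)
      · show c' 0 + d * ((c 0 - c' 0) / d) = c 0
        field_simp; ring
      · exact h2 j
    · rintro (_ | j)
      · show |(c 0 - c' 0) / d| ≤ _
        rw [abs_div]
        refine (div_le_self (abs_nonneg _) hd).trans ((abs_sub _ _).trans ?_)
        have := hb 0; have := h3 0
        push_cast; linarith
      · have := h3 j
        show |c' j| ≤ _
        push_cast; linarith

theorem ode_bound {F G : ℝ → ℝ} {x H : ℝ} (hH : x ≤ H) {N : ℕ}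
    (hG : ∀ t, HasDerivAt G (x * G t + F t) t) (h0 : G 0 = 0)
    (hF : ∀ t, 0 ≤ t → |F t| ≤ t ^ N / N.factorial * exp (H * t)) (s : ℝ) (hs : 0 ≤ s) :
    |G s| ≤ s ^ (N + 1) / (N + 1).factorial * exp (H * s) := by
  have hK : ∀ t, HasDerivAt (fun t => exp (-x * t) * G t) (exp (-x * t) * F t) t := fun t =>
    HasDerivAt.congr_deriv ((hasDerivAt_exp_mul (-x) t).mul (hG t)) (by ring)
  have hB : ∀ t, HasDerivAt (fun t => t ^ (N + 1) / (N + 1).factorial * exp ((H - x) * s))
      (t ^ N / N.factorial * exp ((H - x) * s)) t := fun t => by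
    refine HasDerivAt.congr_deriv (((hasDerivAt_pow (N + 1) t).div_const
      ((N + 1).factorial : ℝ)).mul_const _) ?_
    have h1 : (N.factorial : ℝ) ≠ 0 := by positivity
    have h2 : ((N : ℝ) + 1) ≠ 0 := by positivity
    simp only [Nat.factorial_succ, Nat.add_sub_cancel]
    push_cast
    field_simp
  have key := image_norm_le_of_norm_deriv_right_le_deriv_boundary (a := 0) (b := s)
    (fun t _ => (hK t).continuousAt.continuousWithinAt) (fun t _ => (hK t).hasDerivWithinAt)
    (by simp [h0]) hB (fun t ht => by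
      rw [Real.norm_eq_abs, abs_mul, abs_of_pos (exp_pos _)]
      have h1 := hF t ht.1
      have h2 : 0 ≤ t ^ N / N.factorial := by have := ht.1; positivity
      calc exp (-x * t) * |F t| ≤ exp (-x * t) * (t ^ N / N.factorial * exp (H * t)) :=
            mul_le_mul_of_nonneg_left h1 (exp_pos _).le
        _ = t ^ N / N.factorial * exp ((H - x) * t) := by
            rw [mul_left_comm, ← exp_add]; congr 2; ring
        _ ≤ _ := mul_le_mul_of_nonneg_left
            (exp_le_exp.2 (mul_le_mul_of_nonneg_left ht.2.le (by linarith))) h2)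
    (show s ∈ Set.Icc 0 s from ⟨hs, le_rfl⟩)
  rw [Real.norm_eq_abs, abs_mul, abs_of_pos (exp_pos _)] at key
  have e : |G s| = exp (x * s) * (exp (-x * s) * |G s|) := by
    rw [← mul_assoc, ← exp_add]; simp
  rw [e]
  refine (mul_le_mul_of_nonneg_left key (exp_pos _).le).trans (le_of_eq ?_)
  rw [mul_left_comm, ← exp_add]; congr 2; ring

theorem exists_hermite {h S l' H : ℕ} (hl : h ≤ l') (hH : l' ≤ H) (N : ℕ) :
    ∀ k : ℕ → ℕ, (∀ l, k l ≤ S) → ∑ l ∈ range h, k l = N →
      ∃ (a : ℝ) (c : ℕ → ℕ → ℝ), 1 ≤ |a| * (H : ℝ) ^ N ∧ |a| ≤ 1 ∧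
        (∀ l j, k l ≤ j → c l j = 0) ∧ (∀ l j, |c l j| ≤ ((h * S + 1 : ℕ) : ℝ) ^ N) ∧
        ∀ t, 0 ≤ t → |a * exp (l' * t) + ∑ l ∈ range h, ep S l (c l) t| ≤
          t ^ N / N.factorial * exp (H * t) := by
  induction N with
  | zero =>
    intro k _ _
    refine ⟨1, fun _ _ => 0, by simp, by simp, fun _ _ _ => rfl, fun _ _ => by simp, ?_⟩
    intro t ht
    have : (l' : ℝ) ≤ H := by exact_mod_cast hH
    simp only [ep, zero_mul, sum_const_zero, add_zero, one_mul, pow_zero, Nat.factorial_zero,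
      Nat.cast_one, div_one, abs_of_pos (exp_pos _)]
    exact exp_le_exp.2 (mul_le_mul_of_nonneg_right this ht)
  | succ N ih =>
    intro k hk hsum
    obtain ⟨x, hx, hkx⟩ : ∃ x ∈ range h, k x ≠ 0 := by
      by_contra hcon
      push Not at hcon
      rw [sum_eq_zero hcon] at hsum
      omega
    have hxh := mem_range.1 hx
    have hS : 0 < S := by have := hk x; omega
    obtain ⟨a, c, ha1, ha2, hc0, hcb, hF⟩ := ih (Function.update k x (k x - 1))
      (fun l => by
        rcases eq_or_ne l x with rfl | hne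
        · rw [Function.update_self]; have := hk l; omega
        · rw [Function.update_of_ne hne]; exact hk l)
      (by
        rw [sum_update_of_mem hx]
        rw [← add_sum_erase _ _ hx] at hsum
        rw [sdiff_singleton_eq_erase]
        omega)
    set W : ℝ := ((h * S + 1 : ℕ) : ℝ) ^ N with hW
    have hW1 : 1 ≤ W := one_le_pow₀ (by exact_mod_cast Nat.le_add_left 1 _)
    have hsolve : ∀ l : ℕ, ∃ c' : ℕ → ℝ, l ≠ x → (∀ j, k l ≤ j → c' j = 0) ∧
        (∀ j, c' (j + 1) + ((l : ℝ) - x) * c' j = c l j) ∧ ∀ j, |c' j| ≤ k l * W := by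
      intro l
      by_cases hne : l = x
      · exact ⟨fun _ => 0, fun h => absurd hne h⟩
      · have hd : 1 ≤ |(l : ℝ) - x| := by
          have : (1 : ℤ) ≤ |(l : ℤ) - x| := Int.one_le_abs (by omega)
          exact_mod_cast this
        obtain ⟨c', h1⟩ := exists_solve hd (by linarith) (k l) (c l)
          (fun j hj => hc0 l j (by rw [Function.update_of_ne hne]; exact hj)) (hcb l)
        exact ⟨c', fun _ => h1⟩
    choose c' hc' using hsolve
    have hd1 : (1 : ℝ) ≤ (l' : ℝ) - x := by
      have : x + 1 ≤ l' := by omega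
      have : (x : ℝ) + 1 ≤ l' := by exact_mod_cast this
      linarith
    have hd2 : (l' : ℝ) - x ≤ H := by
      have : (l' : ℝ) ≤ H := by exact_mod_cast hH
      have : (0 : ℝ) ≤ x := Nat.cast_nonneg _
      linarith
    set a' : ℝ := a / ((l' : ℝ) - x) with ha'
    have ha'1 : |a'| ≤ |a| := by
      rw [ha', abs_div, abs_of_pos (by linarith : (0 : ℝ) < l' - x)]
      exact div_le_self (abs_nonneg _) hd1
    set c0 : ℝ := -(a' + ∑ l ∈ (range h).erase x, c' l 0) with hc0'
    set C : ℕ → ℕ → ℝ := fun l j => if l = x then Nat.casesOn j c0 (c x) else c' l j with hC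
    have hCx0 : C x 0 = c0 := by simp [hC]
    have hCxs : ∀ j, C x (j + 1) = c x j := by intro j; simp [hC]
    have hCne : ∀ l, l ≠ x → C l = c' l := by intro l hl; funext j; simp [hC, hl]
    have hCz : ∀ l j, k l ≤ j → C l j = 0 := by
      intro l j hj
      rcases eq_or_ne l x with rfl | hne
      · obtain _ | j := j
        · omega
        · rw [hCxs]; exact hc0 l j (by rw [Function.update_self]; omega)
      · rw [hCne l hne]; exact (hc' l hne).1 j hj
    have hrec : ∀ l j, C l (j + 1) + ((l : ℝ) - x) * C l j = c l j := by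
      intro l j
      rcases eq_or_ne l x with rfl | hne
      · rw [hCxs]; simp
      · rw [hCne l hne]; exact (hc' l hne).2.1 j
    have hSW : ∀ l, l ≠ x → ∀ j, |c' l j| ≤ S * W := fun l hne j =>
      ((hc' l hne).2.2 j).trans (mul_le_mul_of_nonneg_right (by exact_mod_cast hk l) (by linarith))
    have hh1 : (1 : ℝ) ≤ h := by exact_mod_cast (by omega : 1 ≤ h)
    have hS0 : (0 : ℝ) ≤ S := Nat.cast_nonneg _
    have hpow : ((h * S + 1 : ℕ) : ℝ) ^ (N + 1) = (h * S + 1) * W := by
      rw [pow_succ, hW]; push_cast; ring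
    refine ⟨a', C, ?_, ha'1.trans ha2, hCz, ?_, ?_⟩
    · have e : |a| = |a'| * ((l' : ℝ) - x) := by
        rw [ha', abs_div, abs_of_pos (by linarith : (0 : ℝ) < l' - x)]
        field_simp
      rw [e] at ha1
      refine ha1.trans ?_
      rw [pow_succ', ← mul_assoc]
      gcongr
    · intro l j
      rw [hpow]
      have hSW' : S * W ≤ h * S * W := by
        have : 0 ≤ S * W := by positivity
        nlinarith
      rcases eq_or_ne l x with rfl | hne
      · obtain _ | j := j
        · rw [hCx0, hc0', abs_neg]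
          refine (abs_add_le _ _).trans ?_
          have h1 : |∑ i ∈ (range h).erase l, c' i 0| ≤ h * (S * W) := by
            refine (abs_sum_le_sum_abs _ _).trans ?_
            refine (sum_le_card_nsmul _ _ (S * W) fun i hi => hSW i (ne_of_mem_erase hi) 0).trans ?_
            rw [nsmul_eq_mul]
            have : ((range h).erase l).card ≤ h := card_erase_le.trans (card_range h).le
            gcongr
          nlinarith
        · rw [hCxs]
          have := hcb l j
          have : 0 ≤ h * S * W := by positivity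
          nlinarith
      · rw [hCne l hne]
        have := hSW l hne j
        nlinarith
    · refine ode_bound (x := x) (by exact_mod_cast (by omega : x ≤ H))
        (fun t => ?_) ?_ hF
      · have h1 := ((hasDerivAt_exp_mul l' t).const_mul a').add
          (HasDerivAt.fun_sum (u := range h) fun l _ => hasDerivAt_ep S l (C l) (hCz l S (hk l)) t)
        refine HasDerivAt.congr_deriv h1 ?_
        have e1 : ∀ l, ep S l (fun j => C l (j + 1) + l * C l j) t =
            x * ep S l (C l) t + ep S l (c l) t := by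
          intro l
          simp only [ep, mul_sum, ← sum_add_distrib]
          refine sum_congr rfl fun j _ => ?_
          rw [← hrec l j]; ring
        have e2 : a = a' * ((l' : ℝ) - x) := by rw [ha']; field_simp
        simp only [e1, sum_add_distrib, ← mul_sum]
        rw [e2]; ring
      · simp only [ep_zero hS, mul_zero, exp_zero, mul_one]
        have e3 : ∑ l ∈ (range h).erase x, C l 0 = ∑ l ∈ (range h).erase x, c' l 0 :=
          sum_congr rfl fun l hl => by rw [hCne l (ne_of_mem_erase hl)]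
        rw [← add_sum_erase _ _ hx, hCx0, hc0', e3]
        ring

/-- Extrapolation: zeros of order `S` (for the perturbed frequencies `θ`) at `0, …, h-1` make the
exponential sum small at `l'`. -/
theorem extrap {ι : Type*} [Fintype ι] (w θ θ' : ι → ℝ) {Θ η : ℝ} (h0 : ∀ i, 0 ≤ θ' i)
    (h1 : ∀ i, θ' i ≤ Θ) (hη : ∀ i, |θ' i - θ i| ≤ η) (hη1 : η ≤ 1) {h S l' H : ℕ}
    (hl : h ≤ l') (hH : l' ≤ H)
    (hz : ∀ l < h, ∀ j < S, ∑ i, w i * θ i ^ j * exp (l * θ' i) = 0) :
    |∑ i, w i * exp (l' * θ' i)| ≤ (H : ℝ) ^ (h * S) * (∑ i, |w i|) *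
      (Θ ^ (h * S) / (h * S).factorial * exp (H * Θ) +
        (h * S : ℕ) * (((h * S + 1 : ℕ) : ℝ) ^ (h * S) * (η * S * (Θ + 1) ^ S * exp (h * Θ)))) := by
  obtain ⟨a, c, ha1, -, -, hcb, hF⟩ := exists_hermite (S := S) hl hH (h * S) (fun _ => S)
    (fun _ => le_rfl) (by simp)
  set N := h * S with hN
  set W : ℝ := ((N + 1 : ℕ) : ℝ) ^ N with hW
  set E : ℝ := η * S * (Θ + 1) ^ S * exp (h * Θ) with hE
  set R : ι → ℝ := fun i => ∑ l ∈ range h, ∑ j ∈ range S,
    c l j * ((θ' i ^ j - θ i ^ j) / j.factorial * exp (l * θ' i)) with hR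
  have hR1 : ∀ i, |R i| ≤ N * (W * E) := by
    intro i
    have hΘ : 0 ≤ Θ := (h0 i).trans (h1 i)
    have hη0 : 0 ≤ η := (abs_nonneg _).trans (hη i)
    have hterm : ∀ l ∈ range h, ∀ j ∈ range S,
        |c l j * ((θ' i ^ j - θ i ^ j) / j.factorial * exp (l * θ' i))| ≤ W * E := by
      intro l hl j hj
      rw [abs_mul, abs_mul, abs_div, abs_of_pos (exp_pos _)]
      have b1 : |θ' i ^ j - θ i ^ j| ≤ η * S * (Θ + 1) ^ S := by
        refine (abs_pow_sub_pow_le _ _ _).trans ?_
        have m1 : max |θ' i| |θ i| ≤ Θ + 1 := by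
          have a1 := abs_le.1 (hη i)
          have := h0 i; have := h1 i
          refine max_le (abs_le.2 ⟨by linarith, by linarith⟩) (abs_le.2 ⟨by linarith, by linarith⟩)
        have m2 : max |θ' i| |θ i| ^ (j - 1) ≤ (Θ + 1) ^ S :=
          (pow_le_pow_left₀ (by positivity) m1 _).trans
            (pow_le_pow_right₀ (by linarith) (by have := mem_range.1 hj; omega))
        have m3 : (j : ℝ) ≤ S := by exact_mod_cast (mem_range.1 hj).le
        have := hη i
        gcongr
      have b2 : |θ' i ^ j - θ i ^ j| / |(j.factorial : ℝ)| ≤ η * S * (Θ + 1) ^ S := by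
        refine (div_le_self (abs_nonneg _) ?_).trans b1
        rw [abs_of_nonneg (Nat.cast_nonneg _)]
        exact_mod_cast j.factorial_pos
      have b3 : exp (l * θ' i) ≤ exp (h * Θ) := by
        have : (l : ℝ) ≤ h := by exact_mod_cast (mem_range.1 hl).le
        have := h0 i; have := h1 i
        gcongr
      have b4 := hcb l j
      rw [hE]
      gcongr
    refine (abs_sum_le_sum_abs _ _).trans ?_
    refine (sum_le_card_nsmul _ _ (S * (W * E)) fun l hl => ?_).trans (le_of_eq ?_)
    · refine (abs_sum_le_sum_abs _ _).trans ?_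
      refine (sum_le_card_nsmul _ _ (W * E) fun j hj => hterm l hl j hj).trans (le_of_eq ?_)
      simp
    · simp [hN]; ring
  have key : a * ∑ i, w i * exp (l' * θ' i) =
      ∑ i, w i * ((a * exp (l' * θ' i) + ∑ l ∈ range h, ep S l (c l) (θ' i)) - R i) := by
    have e1 : ∀ i, ∑ l ∈ range h, ep S l (c l) (θ' i) - R i =
        ∑ l ∈ range h, ∑ j ∈ range S, c l j / j.factorial * (θ i ^ j * exp (l * θ' i)) := by
      intro i
      simp only [hR, ep, eb, ← sum_sub_distrib]
      exact sum_congr rfl fun l _ => sum_congr rfl fun j _ => by ring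
    have e2 : ∑ i, w i * ∑ l ∈ range h, ∑ j ∈ range S,
        c l j / j.factorial * (θ i ^ j * exp (l * θ' i)) = 0 := by
      simp only [mul_sum]
      rw [sum_comm]
      refine sum_eq_zero fun l hl => ?_
      rw [sum_comm]
      refine sum_eq_zero fun j hj => ?_
      have := hz l (mem_range.1 hl) j (mem_range.1 hj)
      calc _ = c l j / j.factorial * ∑ i, w i * θ i ^ j * exp (l * θ' i) := by
            rw [mul_sum]; exact sum_congr rfl fun i _ => by ring
        _ = 0 := by rw [this, mul_zero]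
    simp only [add_sub_assoc, e1, mul_add, sum_add_distrib, e2, add_zero]
    rw [mul_sum]
    exact sum_congr rfl fun i _ => by ring
  have b : |a| * |∑ i, w i * exp (l' * θ' i)| ≤ (∑ i, |w i|) *
      (Θ ^ N / N.factorial * exp (H * Θ) + N * (W * E)) := by
    rw [← abs_mul, key, sum_mul]
    refine (abs_sum_le_sum_abs _ _).trans (sum_le_sum fun i _ => ?_)
    rw [abs_mul]
    refine mul_le_mul_of_nonneg_left ((abs_sub _ _).trans (add_le_add ?_ (hR1 i))) (abs_nonneg _)
    refine (hF _ (h0 i)).trans ?_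
    have := h0 i; have := h1 i
    have hΘ : 0 ≤ Θ := (h0 i).trans (h1 i)
    gcongr
  calc |∑ i, w i * exp (l' * θ' i)| = 1 * |∑ i, w i * exp (l' * θ' i)| := (one_mul _).symm
    _ ≤ (|a| * (H : ℝ) ^ N) * |∑ i, w i * exp (l' * θ' i)| :=
        mul_le_mul_of_nonneg_right ha1 (abs_nonneg _)
    _ = (H : ℝ) ^ N * (|a| * |∑ i, w i * exp (l' * θ' i)|) := by ring
    _ ≤ _ := by rw [mul_assoc]; exact mul_le_mul_of_nonneg_left b (by positivity)

end Pool.Agent.Lib.Baker
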