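import Pool.Agent.Lib.Baker.Hermite

/-!
An explicit lower bound for linear forms in logarithms of multiplicatively independent positive
integers (Baker's method, with a weak but explicit dependence on all parameters).
-/

set_option autoImplicit false

namespace Pool.Agent.Lib.Baker

open Finset Real

section Abstract

variable {ι J : Type*} [Fintype ι] [Fintype J]

/-- Vanishing of the auxiliary sums to order `M` at the point `l`. -/
def Van (γ : ι → J → ℤ) (ν : ι → ℕ) (c : ι → ℤ) (M l : ℕ) : Prop :=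
  ∀ m : J → ℕ, (∀ r, m r ≤ M) → ∑ i, c i * (∏ r, γ i r ^ m r) * (ν i : ℤ) ^ l = 0

theorem Van.mono {γ : ι → J → ℤ} {ν : ι → ℕ} {c : ι → ℤ} {M M' l : ℕ} (h : Van γ ν c M l)
    (hM : M' ≤ M) : Van γ ν c M' l := fun m hm => h m fun r => (hm r).trans hM

theorem Van.pow {γ : ι → J → ℤ} {ν : ι → ℕ} {c : ι → ℤ} (κ : J → ℝ) {l : ℕ} (j : ℕ) :
    ∀ {M : ℕ}, Van γ ν c (M + j) l → ∀ m : J → ℕ, (∀ r, m r ≤ M) →
      ∑ i, ((c i * ∏ r, γ i r ^ m r : ℤ) : ℝ) * (∑ r, κ r * γ i r) ^ j * (ν i : ℝ) ^ l = 0 := by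
  classical
  induction j with
  | zero =>
    intro M h m hm
    have := h m hm
    simp only [pow_zero, mul_one]
    exact_mod_cast this
  | succ j ih =>
    intro M h m hm
    have h' : Van γ ν c (M + 1 + j) l := by rwa [add_right_comm, add_assoc]
    have e : ∀ i, ((c i * ∏ r, γ i r ^ m r : ℤ) : ℝ) * (∑ r, κ r * γ i r) ^ (j + 1) *
        (ν i : ℝ) ^ l = ∑ s, κ s * (((c i * ∏ r, γ i r ^ (m + Pi.single s 1 : J → ℕ) r : ℤ) : ℝ) *
          (∑ r, κ r * γ i r) ^ j * (ν i : ℝ) ^ l) := by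
      intro i
      have e1 : ∀ s, ∏ r, γ i r ^ (m + Pi.single s 1 : J → ℕ) r = γ i s * ∏ r, γ i r ^ m r := by
        intro s
        simp only [Pi.add_apply, pow_add, prod_mul_distrib]
        rw [mul_comm]
        congr 1
        rw [prod_eq_single s]
        · simp
        · intro r _ hr; simp [hr]
        · simp
      simp only [e1]
      rw [pow_succ', sum_mul, mul_sum, sum_mul]
      refine sum_congr rfl fun s _ => ?_
      push_cast; ring
    simp only [e]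
    rw [sum_comm]
    refine sum_eq_zero fun s _ => ?_
    rw [← mul_sum, ih h' _ fun r => ?_, mul_zero]
    have := hm r
    rcases eq_or_ne r s with rfl | hr
    · simpa using this
    · simp [hr]; omega

theorem numeric {X Wt Θ η L : ℝ} {h S H T : ℕ} (hX : 256 ≤ X) (hh : 1 ≤ h) (hS : 1 ≤ S)
    (hhH : h ≤ H) (hW0 : 0 ≤ Wt) (hW : Wt ≤ exp ((h * S : ℕ) / 4)) (hΘ : 0 ≤ Θ)
    (hy : X * (H * Θ) ≤ (h * S : ℕ)) (hN : ((h * S : ℕ) : ℝ) ≤ X ^ T) (hH : (H : ℝ) ≤ X ^ T)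
    (hT : (T : ℝ) + 1 ≤ X) (hη0 : 0 ≤ η) (hL : L ≤ X ^ T)
    (hη : η ≤ L * exp (-X ^ (T + 3))) :
    (H : ℝ) ^ (h * S) * Wt * (Θ ^ (h * S) / (h * S).factorial * exp (H * Θ) +
      (h * S : ℕ) * (((h * S + 1 : ℕ) : ℝ) ^ (h * S) * (η * S * (Θ + 1) ^ S * exp (h * Θ)))) < 1 := by
  have hSN : S ≤ h * S := Nat.le_mul_of_pos_left _ hh
  generalize h * S = N at *
  have hN1 : 1 ≤ N := hS.trans hSN
  have hN0 : (0 : ℝ) ≤ N := Nat.cast_nonneg _
  have hH1 : (1 : ℝ) ≤ H := by exact_mod_cast hh.trans hhH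
  have hy0 : 0 ≤ H * Θ := by positivity
  have hy1 : H * Θ ≤ N := by nlinarith
  have hWN : Wt ≤ exp N := hW.trans (exp_le_exp.2 (by linarith))
  have t1 : (H : ℝ) ^ N * Wt * (Θ ^ N / N.factorial * exp (H * Θ)) ≤ 1 / 4 := by
    have a1 : (X * (H * Θ)) ^ N / N.factorial ≤ exp N :=
      (pow_div_factorial_le_exp _ (by positivity) N).trans (exp_le_exp.2 hy)
    have a2 : exp (H * Θ) ≤ exp N := exp_le_exp.2 hy1
    have a3 : exp 3 ≤ 64 := by
      have : exp 3 = exp 1 ^ 3 := by rw [← exp_nat_mul]; norm_num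
      have h1 := exp_one_lt_d9
      rw [this]
      calc exp 1 ^ 3 ≤ 4 ^ 3 := by gcongr; linarith
        _ = 64 := by norm_num
    have a4 : exp N * exp N * exp N ≤ X ^ N * (1 / 4) := by
      calc exp N * exp N * exp N = exp 3 ^ N := by
            rw [← exp_add, ← exp_add, ← exp_nat_mul]; congr 1; ring
        _ ≤ (X * (1 / 4)) ^ N := by gcongr; linarith
        _ = X ^ N * (1 / 4) ^ N := mul_pow _ _ _
        _ ≤ _ := mul_le_mul_of_nonneg_left
            (pow_le_of_le_one (by norm_num) (by norm_num) (by omega)) (by positivity)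
    have hXN : 0 < X ^ N := by positivity
    refine le_of_mul_le_mul_left ?_ hXN
    calc X ^ N * ((H : ℝ) ^ N * Wt * (Θ ^ N / N.factorial * exp (H * Θ))) =
          Wt * ((X * (H * Θ)) ^ N / N.factorial) * exp (H * Θ) := by
          rw [mul_pow, mul_pow]; ring
      _ ≤ exp N * exp N * exp N := by gcongr
      _ ≤ _ := a4
  have hX1 : 1 ≤ X := by linarith
  set Y := X ^ (T + 2) with hY
  have hTY : X ^ T ≤ Y := pow_le_pow_right₀ hX1 (by omega)
  have hY1 : 1 ≤ Y := one_le_pow₀ hX1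
  have hXT : 1 ≤ X ^ T := one_le_pow₀ hX1
  have b0 : (X ^ (T + 1)) ^ N ≤ exp Y := by
    have c1 : X ≤ exp X := by linarith [add_one_le_exp X]
    calc (X ^ (T + 1)) ^ N ≤ (exp X ^ (T + 1)) ^ N := by gcongr
      _ = exp (N * ((T + 1) * X)) := by
          rw [← exp_nat_mul, ← exp_nat_mul]; push_cast; rfl
      _ ≤ _ := by
          refine exp_le_exp.2 ?_
          calc N * ((T + 1) * X) ≤ X ^ T * (X * X) := by gcongr
            _ = Y := by rw [hY]; ring
  have hN' : (N : ℝ) + 1 ≤ X ^ (T + 1) := by rw [pow_succ]; nlinarith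
  have b1 : (H : ℝ) ^ N ≤ exp Y := by
    refine le_trans ?_ b0
    have : (H : ℝ) ≤ X ^ (T + 1) := hH.trans (pow_le_pow_right₀ hX1 (by omega))
    gcongr
  have b2 : ((N + 1 : ℕ) : ℝ) ^ N ≤ exp Y := by
    refine le_trans ?_ b0
    push_cast; gcongr
  have b3 : (Θ + 1) ^ S ≤ exp Y := by
    refine le_trans ?_ b2
    have : Θ ≤ N := by nlinarith
    push_cast
    exact (pow_le_pow_left₀ (by linarith) (by linarith) _).trans
      (pow_le_pow_right₀ (by linarith) hSN)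
  have hNY : (N : ℝ) ≤ Y := hN.trans hTY
  have b4 : (N : ℝ) ≤ exp Y := by linarith [add_one_le_exp Y]
  have b5 : (S : ℝ) ≤ exp Y := le_trans (by exact_mod_cast hSN) b4
  have b6 : Wt ≤ exp Y := hWN.trans (exp_le_exp.2 hNY)
  have b7 : exp (h * Θ) ≤ exp Y := by
    have : (h : ℝ) ≤ H := by exact_mod_cast hhH
    exact exp_le_exp.2 (by nlinarith)
  have b8 : η ≤ exp Y * exp (-X ^ (T + 3)) := by
    refine hη.trans (mul_le_mul_of_nonneg_right ?_ (exp_pos _).le)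
    linarith [add_one_le_exp Y]
  have t2 : (H : ℝ) ^ N * Wt * (N * (((N + 1 : ℕ) : ℝ) ^ N *
      (η * S * (Θ + 1) ^ S * exp (h * Θ)))) ≤ 1 / 2 := by
    calc _ ≤ exp Y * exp Y * (exp Y * (exp Y *
          (exp Y * exp (-X ^ (T + 3)) * exp Y * exp Y * exp Y))) := by gcongr
      _ = exp (8 * Y - X * Y) := by
          simp only [← exp_add]; congr 1; rw [hY]; ring
      _ ≤ exp (-1) := exp_le_exp.2 (by nlinarith)
      _ ≤ 1 / 2 := by
          rw [exp_neg, one_div]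
          exact inv_anti₀ (by norm_num) (by linarith [add_one_le_exp (1 : ℝ)])
  rw [mul_add]
  linarith

theorem abs_prod_pow_le {g : J → ℤ} {Γ : ℝ} (hΓ : 1 ≤ Γ) (hg : ∀ r, |(g r : ℝ)| ≤ Γ) {m : J → ℕ}
    {M : ℕ} (hm : ∀ r, m r ≤ M) :
    |((∏ r, g r ^ m r : ℤ) : ℝ)| ≤ Γ ^ (Fintype.card J * M) := by
  push_cast
  rw [abs_prod, pow_mul', ← card_univ, ← prod_const]
  refine prod_le_prod (fun r _ => abs_nonneg _) fun r _ => ?_
  rw [abs_pow]
  exact (pow_le_pow_left₀ (abs_nonneg _) (hg r) _).trans (pow_le_pow_right₀ hΓ (hm r))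

attribute [local instance] Matrix.seminormedAddCommGroup in
theorem exists_aux [DecidableEq J] (γ : ι → J → ℤ) (ν : ι → ℕ) {M h : ℕ} (hh : 0 < h) {U : ℝ}
    (hU : 1 ≤ U) (hcard : 2 * ((M + 1) ^ Fintype.card J * h) ≤ Fintype.card ι)
    (hb : ∀ i (m : J → ℕ) l, (∀ r, m r ≤ M) → l < h →
      |(((∏ r, γ i r ^ m r) * (ν i : ℤ) ^ l : ℤ) : ℝ)| ≤ U) :
    ∃ c : ι → ℤ, c ≠ 0 ∧ (∀ i, |(c i : ℝ)| ≤ Fintype.card ι * U) ∧ ∀ l < h, Van γ ν c M l := by
  set A : Matrix ((J → Fin (M + 1)) × Fin h) ι ℤ :=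
    Matrix.of fun e i => (∏ r, γ i r ^ (e.1 r : ℕ)) * (ν i : ℤ) ^ (e.2 : ℕ) with hA
  have hc : Fintype.card ((J → Fin (M + 1)) × Fin h) = (M + 1) ^ Fintype.card J * h := by simp
  have hpos : 0 < (M + 1) ^ Fintype.card J * h := by positivity
  obtain ⟨c, hc0, hc1, hc2⟩ := Int.Matrix.exists_ne_zero_int_vec_norm_le A (by omega) (by omega)
  have hnorm : ‖A‖ ≤ U := by
    refine (Matrix.norm_le_iff (by linarith)).2 fun e i => ?_
    rw [Int.norm_eq_abs]
    exact hb i (fun r => e.1 r) e.2 (fun r => Nat.lt_succ_iff.1 (e.1 r).2) e.2.2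
  refine ⟨c, hc0, fun i => ?_, fun l hl m hm => ?_⟩
  · have h1 : ‖c i‖ ≤ ‖c‖ := norm_le_pi_norm c i
    rw [Int.norm_eq_abs] at h1
    refine h1.trans (hc2.trans ?_)
    have hn : (1 : ℝ) ≤ Fintype.card ι := by exact_mod_cast (by omega : 1 ≤ Fintype.card ι)
    have h2 : (1 : ℝ) ≤ Fintype.card ι * max 1 ‖A‖ := one_le_mul_of_one_le_of_one_le hn
      (le_max_left _ _)
    refine (rpow_le_rpow_of_exponent_le h2 (y := _) (z := 1) ?_).trans ?_
    · rw [hc]
      have h3 : (2 : ℝ) * ((M + 1) ^ Fintype.card J * h : ℕ) ≤ Fintype.card ι := by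
        exact_mod_cast hcard
      have h4 : (0 : ℝ) < ((M + 1) ^ Fintype.card J * h : ℕ) := by exact_mod_cast hpos
      rw [div_le_one (by linarith)]
      linarith
    · rw [rpow_one]
      exact mul_le_mul_of_nonneg_left (max_le hU hnorm) (by linarith)
  · have := congrFun hc1 (fun r => ⟨m r, Nat.lt_succ_of_le (hm r)⟩, ⟨l, hl⟩)
    simp only [hA, Matrix.mulVec, dotProduct, Matrix.of_apply, Pi.zero_apply] at this
    rw [← this]
    exact sum_congr rfl fun i _ => by ring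

theorem eq_zero_of_van {γ : ι → J → ℤ} {ν : ι → ℕ} (hν : Function.Injective ν) {c : ι → ℤ}
    (h : ∀ l < Fintype.card ι, Van γ ν c 0 l) : c = 0 := by
  set e := (Fintype.equivFin ι).symm
  have := Matrix.eq_zero_of_forall_pow_sum_mul_pow_eq_zero (f := fun j => (ν (e j) : ℤ))
    (v := fun j => c (e j)) (fun a b hab => e.injective (hν (Nat.cast_injective (R := ℤ) hab))) fun l => by
      have h1 := h l l.2 0 fun _ => le_rfl
      simp only [Pi.zero_apply, pow_zero, prod_const_one, mul_one] at h1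
      rw [← h1]
      exact Equiv.sum_comp e fun i => c i * (ν i : ℤ) ^ (l : ℕ)
  funext i
  simpa using congrFun this (e.symm i)

theorem Van.step {γ : ι → J → ℤ} {ν : ι → ℕ} {c : ι → ℤ} (κ : J → ℝ) (hν : ∀ i, 0 < ν i)
    {Θ η Wt : ℝ} (h1 : ∀ i, log (ν i) ≤ Θ) (hη : ∀ i, |log (ν i) - ∑ r, κ r * γ i r| ≤ η)
    (hη1 : η ≤ 1) {M h S H : ℕ}
    (hW : ∀ m : J → ℕ, (∀ r, m r ≤ M) → ∑ i, |((c i * ∏ r, γ i r ^ m r : ℤ) : ℝ)| ≤ Wt)
    (hnum : ∀ W, 0 ≤ W → W ≤ Wt → (H : ℝ) ^ (h * S) * W *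
      (Θ ^ (h * S) / (h * S).factorial * exp (H * Θ) + (h * S : ℕ) *
        (((h * S + 1 : ℕ) : ℝ) ^ (h * S) * (η * S * (Θ + 1) ^ S * exp (h * Θ)))) < 1)
    (hz : ∀ l < h, Van γ ν c (M + S) l) : ∀ l < H, Van γ ν c M l := by
  intro l' hl' m hm
  rcases lt_or_ge l' h with hlt | hge
  · exact (hz l' hlt).mono (Nat.le_add_right _ _) m hm
  have hexp : ∀ (l : ℕ) i, exp (l * log (ν i)) = (ν i : ℝ) ^ l := fun l i => by
    rw [exp_nat_mul, exp_log (by exact_mod_cast hν i)]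
  have key := extrap (fun i => ((c i * ∏ r, γ i r ^ m r : ℤ) : ℝ)) (fun i => ∑ r, κ r * γ i r)
    (fun i => log (ν i)) (fun i => log_natCast_nonneg _) h1 hη hη1 (S := S) hge hl'.le
    (fun l hl j hj => by
      simp only [hexp]
      exact Van.pow κ j ((hz l hl).mono (by omega)) m hm)
  have k2 := key.trans_lt (hnum _ (sum_nonneg fun i _ => abs_nonneg _) (hW m hm))
  simp only [hexp] at k2
  have k3 : |∑ i, c i * (∏ r, γ i r ^ m r) * (ν i : ℤ) ^ l'| < 1 := by exact_mod_cast k2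
  exact Int.abs_lt_one_iff.1 k3

end Abstract

end Pool.Agent.Lib.Baker
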